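import Pool.Agent.W593.IR.Stm
import Pool.Agent.W976.SAM.Bas

/-!
Project IR (MP_da3f72_co, MP_bc48ca_co), part GW: adding the last variable.
-/

set_option autoImplicit false

namespace Pool.Agent.W53.IR

open Finset Pool.Agent.W890.SF Pool.Agent.W593.IR

section map

variable {ι κ : Type} [DecidableEq ι] [DecidableEq κ]

omit [DecidableEq ι] [DecidableEq κ] in
theorem powerset_map' (e : ι ↪ κ) (S : Finset ι) :
    (S.map e).powerset = S.powerset.map (Finset.mapEmbedding e).toEmbedding := by
  ext t
  simp only [Finset.mem_powerset, Finset.mem_map, Finset.subset_map_iff,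
    RelEmbedding.coe_toEmbedding, Finset.mapEmbedding_apply]
  constructor
  · rintro ⟨u, hu, rfl⟩
    exact ⟨u, hu, rfl⟩
  · rintro ⟨u, hu, rfl⟩
    exact ⟨u, hu, rfl⟩

theorem wt_map (e : ι ↪ κ) (q : κ → ℝ) (S ω : Finset ι) :
    Wt q (S.map e) (ω.map e) = Wt (fun i => q (e i)) S ω := by
  unfold Wt
  rw [← Finset.map_sdiff, Finset.prod_map, Finset.prod_map]

theorem pg_map (e : ι ↪ κ) (b q : κ → ℝ) (c : ℝ) (S : Finset ι) :
    PG b q c (S.map e) = PG (fun i => b (e i)) (fun i => q (e i)) c S := by
  unfold PG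
  rw [powerset_map', Finset.sum_map]
  refine Finset.sum_congr rfl fun ω _ => ?_
  simp only [RelEmbedding.coe_toEmbedding, Finset.mapEmbedding_apply, Finset.sum_map, wt_map]

theorem pu_map (e : ι ↪ κ) (b q : κ → ℝ) (c : ℝ) (S : Finset ι) :
    PU b q c (S.map e) = PU (fun i => b (e i)) (fun i => q (e i)) c S := by
  unfold PU
  rw [powerset_map', Finset.sum_map]
  refine Finset.sum_congr rfl fun ω _ => ?_
  simp only [RelEmbedding.coe_toEmbedding, Finset.mapEmbedding_apply, Finset.sum_map, wt_map]

/-- the step -/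
theorem step (b q : ι → ℝ) (c a x : ℝ) (k : ι) (S : Finset ι) (hk : k ∉ S)
    (hq : ∀ i ∈ insert k S, 0 ≤ q i ∧ q i < 1) (ha : 0 ≤ a) (hb : 0 ≤ b k)
    (hx : a + b k * q k = x) :
    PG b q c S ≤ PG b q (c - a) (insert k S) + x * PU b q c S := by
  have hqS : ∀ i ∈ S, 0 ≤ q i ∧ q i < 1 := fun i hi => hq i (Finset.mem_insert_of_mem hi)
  have hqk := hq k (Finset.mem_insert_self k S)
  unfold PG PU
  rw [Finset.sum_powerset_insert hk, Finset.mul_sum, ← Finset.sum_add_distrib,
    ← Finset.sum_add_distrib]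
  refine Finset.sum_le_sum fun ω hω => ?_
  have hω' := Finset.mem_powerset.1 hω
  have hkω : k ∉ ω := fun h => hk (hω' h)
  have w0 := Pool.Agent.W976.SAM.wt_nonneg hqS hω'
  have e1 : Wt q (insert k S) ω = (1 - q k) * Wt q S ω := by
    unfold Wt
    rw [Finset.insert_sdiff_of_notMem _ hkω, Finset.prod_insert fun h => hk (Finset.sdiff_subset h)]
    ring
  have e2 : Wt q (insert k S) (insert k ω) = q k * Wt q S ω := by
    have e3 : insert k S \ insert k ω = S \ ω := by
      ext i
      simp only [Finset.mem_sdiff, Finset.mem_insert]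
      constructor
      · rintro ⟨rfl | h1, h2⟩
        · exact absurd (Or.inl rfl) h2
        · exact ⟨h1, fun h => h2 (Or.inr h)⟩
      · rintro ⟨h1, h2⟩
        refine ⟨Or.inr h1, ?_⟩
        rintro (rfl | h)
        · exact hk h1
        · exact h2 h
    unfold Wt
    rw [e3, Finset.prod_insert hkω]
    ring
  rw [e1, e2, Finset.sum_insert hkω]
  set W := Wt q S ω with hW
  set z := ∑ i ∈ ω, b i with hz
  have hx0 : 0 ≤ x := by rw [← hx]; exact add_nonneg ha (mul_nonneg hb hqk.1)
  have hq1 : 0 ≤ 1 - q k := by linarith [hqk.2]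
  -- the two terms are at least the untruncated ones
  have t1 : (1 - q k) * W * (c - a - z) ≤
      if z < c - a then (1 - q k) * W * (c - a - z) else 0 := by
    split_ifs with h
    · exact le_rfl
    · exact mul_nonpos_of_nonneg_of_nonpos (mul_nonneg hq1 w0) (by linarith)
  have t2 : q k * W * (c - a - (b k + z)) ≤
      if b k + z < c - a then q k * W * (c - a - (b k + z)) else 0 := by
    split_ifs with h
    · exact le_rfl
    · exact mul_nonpos_of_nonneg_of_nonpos (mul_nonneg hqk.1 w0) (by linarith)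
  have p1 : 0 ≤ if z < c - a then (1 - q k) * W * (c - a - z) else 0 := by
    split_ifs with h
    · exact mul_nonneg (mul_nonneg hq1 w0) (by linarith)
    · exact le_rfl
  have p2 : 0 ≤ if b k + z < c - a then q k * W * (c - a - (b k + z)) else 0 := by
    split_ifs with h
    · exact mul_nonneg (mul_nonneg hqk.1 w0) (by linarith)
    · exact le_rfl
  by_cases hzc : z < c
  · rw [if_pos hzc, if_pos hzc]
    have e4 : (1 - q k) * W * (c - a - z) + q k * W * (c - a - (b k + z)) + x * W =
        W * (c - z) := by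
      rw [← hx]; ring
    linarith
  · rw [if_neg hzc, if_neg hzc, mul_zero, add_zero]
    exact add_nonneg p1 p2

end map

theorem gw : S_GW := by
  intro r x hx a b q h
  have h1 : (univ : Finset (Fin (r + 1))) =
      insert (Fin.last r) (univ.map Fin.castSuccEmb) := by
    ext i
    simp only [Finset.mem_univ, Finset.mem_insert, Finset.mem_map, true_and, true_iff]
    induction i using Fin.lastCases with
    | last => exact Or.inl rfl
    | cast i => exact Or.inr ⟨i, rfl⟩
  have hk : Fin.last r ∉ (univ.map Fin.castSuccEmb : Finset (Fin (r + 1))) := by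
    simp only [Finset.mem_map, Finset.mem_univ, true_and, not_exists]
    intro i hi
    exact (Fin.castSucc_lt_last i).ne hi
  have h2 := step b q (1 - ∑ i : Fin r, a i.castSucc) (a (Fin.last r)) x (Fin.last r)
    (univ.map Fin.castSuccEmb) hk (fun i _ => ⟨h.q0 i, h.q1 i⟩) (h.a0 _) (h.b0 _).le (h.mean _)
  rw [pg_map, pu_map, ← h1] at h2
  have h3 : 1 - ∑ i : Fin r, a i.castSucc - a (Fin.last r) = 1 - ∑ i, a i := by
    rw [Fin.sum_univ_castSucc]; ring
  rw [h3] at h2
  exact h2

end Pool.Agent.W53.IR
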